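import Pool.Agent.Run7.h400.GK.StmA

/-!
# Derivations of Dedekind domains without stable maximal ideals (piece DED)
-/

set_option autoImplicit false
set_option linter.unusedSectionVars false

namespace Run7.h771.GK

open IsDedekindDomain nonZeroDivisors

section

variable {O F : Type} [CommRing O] [IsDedekindDomain O] [Field F] [Algebra O F]
  [IsFractionRing O F]

theorem inj_alg : Function.Injective (algebraMap O F) := IsFractionRing.injective O F

/-- the order of an element at `v` -/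
noncomputable def cv (v : HeightOneSpectrum O) (z : F) : ℤ :=
  FractionalIdeal.count F v (FractionalIdeal.spanSingleton O⁰ z)

theorem span_ne {z : F} (hz : z ≠ 0) : FractionalIdeal.spanSingleton O⁰ z ≠ 0 :=
  FractionalIdeal.spanSingleton_ne_zero_iff.mpr hz

theorem cv_mul (v : HeightOneSpectrum O) {z z' : F} (hz : z ≠ 0) (hz' : z' ≠ 0) :
    cv v (z * z') = cv v z + cv v z' := by
  unfold cv
  rw [← FractionalIdeal.spanSingleton_mul_spanSingleton,
    FractionalIdeal.count_mul F v (span_ne hz) (span_ne hz')]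

theorem cv_inv (v : HeightOneSpectrum O) {z : F} (hz : z ≠ 0) :
    cv v z⁻¹ = -cv v z := by
  have h1 : cv v (z * z⁻¹) = 0 := by
    rw [mul_inv_cancel₀ hz]
    unfold cv
    rw [FractionalIdeal.spanSingleton_one, FractionalIdeal.count_one]
  rw [cv_mul v hz (inv_ne_zero hz)] at h1
  omega

theorem cv_pow (v : HeightOneSpectrum O) {z : F} (hz : z ≠ 0) (n : ℕ) :
    cv v (z ^ n) = n * cv v z := by
  induction n with
  | zero =>
    rw [pow_zero]
    unfold cv
    rw [FractionalIdeal.spanSingleton_one, FractionalIdeal.count_one]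
    simp
  | succ n ih =>
    rw [pow_succ, cv_mul v (pow_ne_zero n hz) hz, ih]
    push_cast
    ring

theorem cv_zpow (v : HeightOneSpectrum O) {z : F} (hz : z ≠ 0) (n : ℤ) :
    cv v (z ^ n) = n * cv v z := by
  cases n with
  | ofNat n =>
    rw [Int.ofNat_eq_natCast, zpow_natCast, cv_pow v hz]
  | negSucc n =>
    rw [zpow_negSucc, cv_inv v (pow_ne_zero _ hz), cv_pow v hz, Int.negSucc_eq]
    push_cast
    ring

/-- the order of an integral element -/
theorem le_cv (v : HeightOneSpectrum O) {a : O} (ha : a ≠ 0) (n : ℕ) :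
    (n : ℤ) ≤ cv v (algebraMap O F a) ↔ a ∈ v.asIdeal ^ n := by
  classical
  have hJ : Ideal.span {a} ≠ (0 : Ideal O) := by
    rw [Submodule.zero_eq_bot, Ne, Ideal.span_singleton_eq_bot]
    exact ha
  unfold cv
  rw [← FractionalIdeal.coeIdeal_span_singleton, FractionalIdeal.count_coe F v hJ, Nat.cast_le,
    ← Associates.prime_pow_dvd_iff_le (Associates.mk_ne_zero.mpr hJ) v.associates_irreducible,
    ← Associates.mk_pow, Associates.mk_le_mk_iff_dvd, Ideal.dvd_iff_le, Ideal.span_singleton_le_iff_mem]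

theorem cv_nonneg (v : HeightOneSpectrum O) {a : O} (ha : a ≠ 0) :
    0 ≤ cv v (algebraMap O F a) := by
  have h := (le_cv (F := F) v ha 0).mpr (by simp)
  exact_mod_cast h

theorem cv_eq_zero (v : HeightOneSpectrum O) {a : O} (ha : a ∉ v.asIdeal) :
    cv v (algebraMap O F a) = 0 := by
  have ha0 : a ≠ 0 := fun h => ha (h ▸ v.asIdeal.zero_mem)
  have h0 := cv_nonneg (F := F) v ha0
  have h1 : ¬ ((1 : ℕ) : ℤ) ≤ cv v (algebraMap O F a) := by
    rw [le_cv v ha0, pow_one]
    exact ha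
  push_cast at h1
  omega

/-- an element of order zero is a quotient of units at `v` -/
theorem exists_quot (v : HeightOneSpectrum O) {h : F} (hh : h ≠ 0) (h0 : cv v h = 0) :
    ∃ e c : O, e ∉ v.asIdeal ∧ c ∉ v.asIdeal ∧ h = algebraMap O F e / algebraMap O F c := by
  obtain ⟨a, b, hb, rfl⟩ := IsFractionRing.div_surjective (A := O) h
  have hb0 : b ≠ 0 := nonZeroDivisors.ne_zero hb
  have hbF : algebraMap O F b ≠ 0 := by
    rw [Ne, map_eq_zero_iff _ inj_alg]
    exact hb0
  have haF : algebraMap O F a ≠ 0 := fun h => hh (by rw [h, zero_div])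
  have ha0 : a ≠ 0 := fun h => haF (by rw [h, map_zero])
  have hab : cv v (algebraMap O F a) = cv v (algebraMap O F b) := by
    rw [div_eq_mul_inv, cv_mul v haF (inv_ne_zero hbF), cv_inv v hbF] at h0
    omega
  have hfin : FiniteMultiplicity v.asIdeal (Ideal.span {b}) := by
    refine FiniteMultiplicity.of_prime_left ?_ ?_
    · exact v.prime
    · rw [Submodule.zero_eq_bot, Ne, Ideal.span_singleton_eq_bot]
      exact hb0
  obtain ⟨n, J, hJ, hvJ⟩ : ∃ (n : ℕ) (J : Ideal O), Ideal.span {b} = v.asIdeal ^ n * J ∧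
      ¬ v.asIdeal ∣ J := ⟨_, hfin.exists_eq_pow_mul_and_not_dvd⟩
  have hnot : ¬ J ≤ v.asIdeal := fun h => hvJ (Ideal.dvd_iff_le.mpr h)
  obtain ⟨c, hcJ, hcv⟩ := SetLike.not_le_iff_exists.mp hnot
  have hbn : (n : ℤ) ≤ cv v (algebraMap O F b) := by
    rw [le_cv v hb0]
    have : b ∈ Ideal.span {b} := Ideal.mem_span_singleton_self b
    rw [hJ] at this
    exact Ideal.mul_le_left (I := v.asIdeal ^ n) (J := J) this
  have han : a ∈ v.asIdeal ^ n := by
    rw [← le_cv (F := F) v ha0, hab]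
    exact hbn
  have hmem : a * c ∈ Ideal.span {b} := by
    rw [hJ]
    exact Ideal.mul_mem_mul han hcJ
  obtain ⟨e, he⟩ := Ideal.mem_span_singleton'.mp hmem
  have hc0 : c ≠ 0 := fun h => hcv (h ▸ v.asIdeal.zero_mem)
  have hcF : algebraMap O F c ≠ 0 := by
    rw [Ne, map_eq_zero_iff _ inj_alg]
    exact hc0
  have heF : algebraMap O F e * algebraMap O F b = algebraMap O F a * algebraMap O F c := by
    rw [← map_mul, ← map_mul, he]
  have hquot : algebraMap O F a / algebraMap O F b = algebraMap O F e / algebraMap O F c := by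
    rw [div_eq_div_iff hbF hcF, ← heF]
  refine ⟨e, c, ?_, hcv, hquot⟩
  have heF0 : algebraMap O F e ≠ 0 := by
    intro h
    rw [h, zero_mul] at heF
    exact mul_ne_zero haF hcF heF.symm
  have he0 : e ≠ 0 := fun h => heF0 (by rw [h, map_zero])
  intro hev
  have h1 : ((1 : ℕ) : ℤ) ≤ cv v (algebraMap O F e) := by
    rw [le_cv v he0, pow_one]
    exact hev
  have h2 := h0
  rw [hquot, div_eq_mul_inv, cv_mul v heF0 (inv_ne_zero hcF), cv_inv v hcF, cv_eq_zero v hcv] at h2
  push_cast at h1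
  omega

/-- the logarithmic derivative -/
noncomputable def dl (δ : F →+ F) (z : F) : F := δ z / z

theorem dl_mul (δ : F →+ F) (hδ : ∀ x y, δ (x * y) = x * δ y + y * δ x) {x y : F} (hx : x ≠ 0)
    (hy : y ≠ 0) : dl δ (x * y) = dl δ x + dl δ y := by
  unfold dl
  rw [hδ]
  field_simp
  ring

theorem dl_one (δ : F →+ F) (hδ : ∀ x y, δ (x * y) = x * δ y + y * δ x) : dl δ 1 = 0 := by
  have h := dl_mul δ hδ (one_ne_zero (α := F)) one_ne_zero
  rw [mul_one] at h
  have : dl δ 1 + 0 = dl δ 1 + dl δ 1 := by rw [add_zero]; exact h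
  exact (add_left_cancel this).symm

theorem dl_inv (δ : F →+ F) (hδ : ∀ x y, δ (x * y) = x * δ y + y * δ x) {x : F} (hx : x ≠ 0) :
    dl δ x⁻¹ = -dl δ x := by
  have h := dl_mul δ hδ hx (inv_ne_zero hx)
  rw [mul_inv_cancel₀ hx, dl_one δ hδ] at h
  exact (neg_eq_of_add_eq_zero_right h.symm).symm

theorem dl_pow (δ : F →+ F) (hδ : ∀ x y, δ (x * y) = x * δ y + y * δ x) {x : F} (hx : x ≠ 0)
    (n : ℕ) : dl δ (x ^ n) = n * dl δ x := by
  induction n with
  | zero => rw [pow_zero, dl_one δ hδ]; simp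
  | succ n ih =>
    rw [pow_succ, dl_mul δ hδ (pow_ne_zero n hx) hx, ih]
    push_cast
    ring

theorem dl_zpow (δ : F →+ F) (hδ : ∀ x y, δ (x * y) = x * δ y + y * δ x) {x : F} (hx : x ≠ 0)
    (n : ℤ) : dl δ (x ^ n) = n * dl δ x := by
  cases n with
  | ofNat n => rw [Int.ofNat_eq_natCast, zpow_natCast, dl_pow δ hδ hx]; simp
  | negSucc n =>
    rw [zpow_negSucc, dl_inv δ hδ (pow_ne_zero _ hx), dl_pow δ hδ hx, Int.negSucc_eq]
    push_cast
    ring

theorem dvd_cv (p : ℕ) (δ : F →+ F) (h : F) (hp : p.Prime) (hcp : CharP F p)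
    (hδ : ∀ x y, δ (x * y) = x * δ y + y * δ x)
    (hO : ∀ x : O, ∃ y : O, algebraMap O F y = δ (algebraMap O F x))
    (hmax : ∀ 𝔪 : Ideal O, 𝔪.IsMaximal → ∃ x ∈ 𝔪, ∃ y : O,
      algebraMap O F y = δ (algebraMap O F x) ∧ y ∉ 𝔪)
    (hh : h ≠ 0) (hy : ∃ y : O, algebraMap O F y = δ h / h) (v : HeightOneSpectrum O) :
    (p : ℤ) ∣ cv v h := by
  choose d hd using hO
  have hdmul : ∀ a b, d (a * b) = a * d b + b * d a := by
    intro a b
    apply inj_alg (F := F)
    rw [hd, map_mul, hδ, map_add, map_mul, map_mul, hd, hd]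
  have hdadd : ∀ a b, d (a + b) = d a + d b := by
    intro a b
    apply inj_alg (F := F)
    rw [hd, map_add, map_add, map_add, hd, hd]
  have hd2 : ∀ x ∈ v.asIdeal ^ 2, d x ∈ v.asIdeal := by
    intro x hx
    rw [pow_two] at hx
    refine Submodule.mul_induction_on hx (fun a ha b hb => ?_) fun a b ha hb => ?_
    · rw [hdmul]
      exact v.asIdeal.add_mem (v.asIdeal.mul_mem_right _ ha) (v.asIdeal.mul_mem_right _ hb)
    · rw [hdadd]
      exact v.asIdeal.add_mem ha hb
  obtain ⟨x, hxv, y₀, hy₀, hy₀v⟩ := hmax v.asIdeal v.isMaximal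
  have hdx : d x ∉ v.asIdeal := by
    have : d x = y₀ := by
      apply inj_alg (F := F)
      rw [hd, hy₀]
    rw [this]
    exact hy₀v
  have hx0 : x ≠ 0 := by
    rintro rfl
    apply hdx
    exact hd2 0 (Ideal.zero_mem _)
  have hxF : algebraMap O F x ≠ 0 := by
    rw [Ne, map_eq_zero_iff _ inj_alg]
    exact hx0
  have hcx : cv v (algebraMap O F x) = 1 := by
    have h1 : ((1 : ℕ) : ℤ) ≤ cv v (algebraMap O F x) := by
      rw [le_cv v hx0, pow_one]
      exact hxv
    have h2 : ¬ ((2 : ℕ) : ℤ) ≤ cv v (algebraMap O F x) := by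
      rw [le_cv v hx0]
      exact fun h => hdx (hd2 x h)
    push_cast at h1 h2
    omega
  set m : ℤ := cv v h with hm
  set X : F := algebraMap O F x with hX
  have hu0 : h * X ^ (-m) ≠ 0 := mul_ne_zero hh (zpow_ne_zero _ hxF)
  have hcu : cv v (h * X ^ (-m)) = 0 := by
    rw [cv_mul v hh (zpow_ne_zero _ hxF), cv_zpow v hxF, hcx]
    omega
  obtain ⟨e, c, he, hc, hec⟩ := exists_quot v hu0 hcu
  have heF : algebraMap O F e ≠ 0 := by
    rw [Ne, map_eq_zero_iff _ inj_alg]
    exact fun h => he (h ▸ v.asIdeal.zero_mem)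
  have hcF : algebraMap O F c ≠ 0 := by
    rw [Ne, map_eq_zero_iff _ inj_alg]
    exact fun h => hc (h ▸ v.asIdeal.zero_mem)
  have hhx : h = X ^ m * (algebraMap O F e * (algebraMap O F c)⁻¹) := by
    rw [← div_eq_mul_inv, ← hec, mul_comm h, ← mul_assoc, ← zpow_add₀ hxF, add_neg_cancel,
      zpow_zero, one_mul]
  obtain ⟨y, hy⟩ := hy
  have hlog : algebraMap O F y = m * dl δ X + (dl δ (algebraMap O F e) -
      dl δ (algebraMap O F c)) := by
    rw [hy]
    show dl δ h = _
    rw [hhx, dl_mul δ hδ (zpow_ne_zero _ hxF) (mul_ne_zero heF (inv_ne_zero hcF)),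
      dl_zpow δ hδ hxF, dl_mul δ hδ heF (inv_ne_zero hcF), dl_inv δ hδ hcF, sub_eq_add_neg]
  have hO : (m : O) * d x * e * c = x * (y * e * c - d e * c + d c * e) := by
    apply inj_alg (F := F)
    simp only [map_mul, map_sub, map_add, map_intCast, hd]
    rw [hlog]
    unfold dl
    rw [← hX]
    field_simp
    ring
  have hmem : (m : O) * d x * e * c ∈ v.asIdeal := by
    rw [hO]
    exact v.asIdeal.mul_mem_right _ hxv
  have hpr := v.isPrime
  have hmO : (m : O) ∈ v.asIdeal := by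
    rcases hpr.mem_or_mem hmem with h1 | h1
    · rcases hpr.mem_or_mem h1 with h2 | h2
      · rcases hpr.mem_or_mem h2 with h3 | h3
        · exact h3
        · exact absurd h3 hdx
      · exact absurd h2 he
    · exact absurd h1 hc
  by_contra hnd
  have hcop : IsCoprime (p : ℤ) m := by
    rw [Int.isCoprime_iff_gcd_eq_one]
    have : Int.gcd (p : ℤ) m = Nat.gcd p m.natAbs := rfl
    rw [this]
    refine (Nat.Prime.coprime_iff_not_dvd hp).mpr ?_
    intro h1
    exact hnd (Int.natCast_dvd.mpr h1)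
  obtain ⟨r, s, hrs⟩ := hcop
  have hpO : ((p : ℤ) : O) = 0 := by
    apply inj_alg (F := F)
    rw [map_intCast, map_zero]
    have := CharP.cast_eq_zero F p
    push_cast
    exact this
  have h1 : (1 : O) = (s : O) * (m : O) := by
    have h2 := congrArg (fun z : ℤ => (z : O)) hrs
    simp only [Int.cast_add, Int.cast_mul, hpO, mul_zero, zero_add, Int.cast_one] at h2
    exact h2.symm
  have h2 : (1 : O) ∈ v.asIdeal := by
    rw [h1]
    exact v.asIdeal.mul_mem_left _ hmO
  exact hpr.ne_top ((Ideal.eq_top_iff_one _).mpr h2)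

end

open Run7.h400.GK in
theorem t_DED : S_DED := by
  intro O F _ _ _ _ _ p δ h hp hcp hδ hO hmax hh hy
  have hdv := fun v => dvd_cv p δ h hp hcp hδ hO hmax hh hy v
  set H : FractionalIdeal O⁰ F := FractionalIdeal.spanSingleton O⁰ h with hH
  have hH0 : H ≠ 0 := span_ne hh
  set f : HeightOneSpectrum O → FractionalIdeal O⁰ F := fun v =>
    (v.asIdeal : FractionalIdeal O⁰ F) ^ (cv v h / p) with hf
  have hfs : Function.HasFiniteMulSupport f := by
    have h1 := FractionalIdeal.finite_factors (K := F) H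
    rw [Filter.eventually_cofinite] at h1
    refine h1.subset ?_
    intro v hv
    rw [Function.mem_mulSupport] at hv
    intro h2
    apply hv
    show (v.asIdeal : FractionalIdeal O⁰ F) ^ (cv v h / p) = 1
    have h3 : cv v h = 0 := h2
    rw [h3, Int.zero_ediv, zpow_zero]
  have hpow : (∏ᶠ v, f v) ^ p = H := by
    rw [finprod_pow hfs]
    conv_rhs => rw [← FractionalIdeal.finprod_heightOneSpectrum_factorization' F hH0]
    refine finprod_congr fun v => ?_
    show ((v.asIdeal : FractionalIdeal O⁰ F) ^ (cv v h / p)) ^ p =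
      (v.asIdeal : FractionalIdeal O⁰ F) ^ (cv v h)
    rw [← zpow_natCast, ← zpow_mul, Int.ediv_mul_cancel (hdv v)]
  have hI : (∏ᶠ v, f v) ≠ 0 := by
    intro h0
    rw [h0, zero_pow hp.ne_zero] at hpow
    exact hH0 hpow.symm
  refine ⟨Units.mk0 _ hI, ?_⟩
  rw [Units.val_pow_eq_pow_val, Units.val_mk0, hpow]

end Run7.h771.GK
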